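import Mathlib

/-! Automorphisms of the `d`-regular rooted tree, groups of finite type, level stabilizers. -/

set_option autoImplicit false

namespace Pool.Agent.MP_66c699_al.H67

/-- `Aut(T)`: the permutations of the words over `Fin d` that preserve the relation
of being an initial segment (the tree order). -/
def autT (d : ℕ) : Subgroup (Equiv.Perm (List (Fin d))) where
  carrier := {g | ∀ u v : List (Fin d), g u <+: g v ↔ u <+: v}
  mul_mem' := fun {g h} hg hh u v => (hg (h u) (h v)).trans (hh u v)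
  one_mem' := fun _ _ => Iff.rfl
  inv_mem' := fun {g} hg u v => by
    have := hg (g⁻¹ u) (g⁻¹ v)
    simp only [Equiv.Perm.coe_inv, Equiv.apply_symm_apply] at this
    exact this.symm

/-- `G_P`: the automorphisms all of whose sections act on the words of length at most `D`
as an element of `P`. -/
def finType {d D : ℕ} (P : Subgroup (Equiv.Perm {w : List (Fin d) // w.length ≤ D})) :
    Subgroup (autT d) where
  carrier := {g | ∀ v : List (Fin d), ∃ p ∈ P, ∀ w : {w : List (Fin d) // w.length ≤ D},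
    g.1 (v ++ w.1) = g.1 v ++ (p w).1}
  mul_mem' := fun {g h} hg hh v => by
    obtain ⟨q, hq, hq'⟩ := hh v
    obtain ⟨p, hp, hp'⟩ := hg (h.1 v)
    exact ⟨p * q, P.mul_mem hp hq, fun w => by
      simp only [Subgroup.coe_mul, Equiv.Perm.mul_apply, hq', hp']⟩
  one_mem' := fun v => ⟨1, P.one_mem, fun _ => rfl⟩
  inv_mem' := fun {g} hg v => by
    obtain ⟨p, hp, hp'⟩ := hg (g.1⁻¹ v)
    refine ⟨p⁻¹, P.inv_mem hp, fun w => ?_⟩
    have := hp' (p⁻¹ w)
    simp only [Equiv.Perm.coe_inv, Equiv.apply_symm_apply] at this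
    simp only [Subgroup.coe_inv, Equiv.Perm.coe_inv, ← this, Equiv.symm_apply_apply]

/-- `St_G(n)`: the elements of `G` fixing every word of length `n`. -/
def levelStab {d : ℕ} (G : Subgroup (autT d)) (n : ℕ) : Subgroup (autT d) where
  carrier := {g | g ∈ G ∧ ∀ v : List (Fin d), v.length = n → g.1 v = v}
  mul_mem' := fun {g h} hg hh => ⟨G.mul_mem hg.1 hh.1, fun v hv => by
    simp only [Subgroup.coe_mul, Equiv.Perm.mul_apply, hh.2 v hv, hg.2 v hv]⟩
  one_mem' := ⟨G.one_mem, fun _ _ => rfl⟩
  inv_mem' := fun {g} hg => ⟨G.inv_mem hg.1, fun v hv => by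
    simp only [Subgroup.coe_inv]
    exact Equiv.Perm.inv_eq_iff_eq.2 (hg.2 v hv).symm⟩

/-- The profinite topology of `Aut(T)`, generated by the cosets of the level stabilizers. -/
def levelTop (d : ℕ) : TopologicalSpace (autT d) :=
  TopologicalSpace.generateFrom
    {U | ∃ (g : autT d) (n : ℕ), U = {h | g⁻¹ * h ∈ levelStab ⊤ n}}

end Pool.Agent.MP_66c699_al.H67
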