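import Pool.Agent.MP_66c699_al.H67.Defs

/-! The abelianization of `St_G(D-1)` has finite exponent. -/

set_option autoImplicit false

namespace Pool.Agent.MP_66c699_al.H67

variable {d : ℕ}

lemma length_le (g : autT d) (v : List (Fin d)) : v.length ≤ (g.1 v).length := by
  induction v using List.reverseRecOn with
  | nil => simp
  | append_singleton u x ih =>
    have h1 : g.1 u <+: g.1 (u ++ [x]) := (g.2 _ _).2 (List.prefix_append _ _)
    have h2 : g.1 u ≠ g.1 (u ++ [x]) := fun h => by simpa using g.1.injective h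
    have h3 := h1.length_le
    have h4 : (g.1 u).length ≠ (g.1 (u ++ [x])).length := fun h => h2 (h1.eq_of_length h)
    simp only [List.length_append, List.length_singleton]
    omega

lemma length_eq (g : autT d) (v : List (Fin d)) : (g.1 v).length = v.length := by
  refine le_antisymm ?_ (length_le g v)
  have := length_le g⁻¹ (g.1 v)
  simpa using this

lemma apply_nil (g : autT d) : g.1 [] = [] := List.length_eq_zero_iff.1 (length_eq g [])

def rt0 (g : autT d) (x : Fin d) : Fin d := (g.1 [x]).headD x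

def sec0 (g : autT d) (x : Fin d) (w : List (Fin d)) : List (Fin d) := (g.1 (x :: w)).tail

lemma cons0 (g : autT d) (x : Fin d) (w : List (Fin d)) :
    g.1 (x :: w) = rt0 g x :: sec0 g x w := by
  have h1 : g.1 [x] <+: g.1 (x :: w) := (g.2 _ _).2 ⟨w, rfl⟩
  obtain ⟨y, hy⟩ := List.length_eq_one_iff.1 (length_eq g [x])
  obtain ⟨t, ht⟩ := h1
  simp only [rt0, sec0, ← ht, hy]
  simp

lemma inv_cons0 (g : autT d) (x : Fin d) (w : List (Fin d)) :
    rt0 g⁻¹ (rt0 g x) = x ∧ sec0 g⁻¹ (rt0 g x) (sec0 g x w) = w := by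
  have := cons0 g⁻¹ (rt0 g x) (sec0 g x w)
  rw [← cons0] at this
  simp only [Subgroup.coe_inv, Equiv.Perm.coe_inv, Equiv.symm_apply_apply] at this
  have h := List.cons.inj this
  exact ⟨h.1.symm, h.2.symm⟩

/-- The action on the first level. -/
def rt (g : autT d) : Equiv.Perm (Fin d) where
  toFun := rt0 g
  invFun := rt0 g⁻¹
  left_inv x := (inv_cons0 g x []).1
  right_inv x := by simpa using (inv_cons0 g⁻¹ x []).1

/-- The section at a vertex of the first level. -/
def sec (g : autT d) (x : Fin d) : autT d :=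
  ⟨{ toFun := sec0 g x
     invFun := sec0 g⁻¹ (rt0 g x)
     left_inv := fun w => (inv_cons0 g x w).2
     right_inv := fun w => by
      have h1 := (inv_cons0 g⁻¹ (rt0 g x) w).2
      rwa [inv_inv, (inv_cons0 g x []).1] at h1 }, fun u v => by
    have := g.2 (x :: u) (x :: v)
    rw [cons0, cons0] at this
    simpa using this⟩

lemma cons_eq (g : autT d) (x : Fin d) (w : List (Fin d)) :
    g.1 (x :: w) = rt g x :: (sec g x).1 w := cons0 g x w

lemma aut_ext {g h : autT d} (H : ∀ x w, g.1 (x :: w) = h.1 (x :: w)) : g = h := by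
  refine Subtype.ext (Equiv.ext fun v => ?_)
  cases v with
  | nil => rw [apply_nil, apply_nil]
  | cons x w => exact H x w

lemma rt_mul (g h : autT d) (x : Fin d) : rt (g * h) x = rt g (rt h x) := by
  have := cons_eq (g * h) x []
  rw [Subgroup.coe_mul, Equiv.Perm.mul_apply, cons_eq, cons_eq] at this
  exact (List.cons.inj this).1.symm

lemma sec_mul (g h : autT d) (x : Fin d) : sec (g * h) x = sec g (rt h x) * sec h x := by
  refine Subtype.ext (Equiv.ext fun w => ?_)
  have := cons_eq (g * h) x w
  rw [Subgroup.coe_mul, Equiv.Perm.mul_apply, cons_eq, cons_eq] at this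
  exact (List.cons.inj this).2.symm

lemma rt_one (x : Fin d) : rt 1 x = x := (List.cons.inj (cons_eq 1 x [])).1.symm

lemma sec_one (x : Fin d) : sec 1 x = 1 :=
  Subtype.ext (Equiv.ext fun w => (List.cons.inj (cons_eq 1 x w)).2.symm)

lemma rt_pow (g : autT d) (n : ℕ) (x : Fin d) : rt (g ^ n) x = (rt g ^ n) x := by
  induction n generalizing x with
  | zero => simp [rt_one]
  | succ n ih => rw [pow_succ, rt_mul, ih, pow_succ, Equiv.Perm.mul_apply]

lemma sec_pow {g : autT d} {x : Fin d} (h : rt g x = x) (n : ℕ) :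
    sec (g ^ n) x = sec g x ^ n := by
  induction n with
  | zero => simp [sec_one]
  | succ n ih => rw [pow_succ, sec_mul, h, ih, pow_succ]

def place0 (x : Fin d) (k : autT d) : List (Fin d) → List (Fin d)
  | [] => []
  | y :: w => if y = x then y :: k.1 w else y :: w

lemma place0_inv (x : Fin d) (k : autT d) (v : List (Fin d)) :
    place0 x k⁻¹ (place0 x k v) = v := by
  cases v with
  | nil => rfl
  | cons y w => by_cases h : y = x <;> simp [place0, h]

/-- The automorphism acting as `k` below the vertex `x` and trivially elsewhere. -/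
def place (x : Fin d) (k : autT d) : autT d :=
  ⟨{ toFun := place0 x k
     invFun := place0 x k⁻¹
     left_inv := place0_inv x k
     right_inv := fun v => by simpa using place0_inv x k⁻¹ v }, fun u v => by
    show place0 x k u <+: place0 x k v ↔ _
    cases u with
    | nil => simp [place0]
    | cons y u =>
      cases v with
      | nil => by_cases h : y = x <;> simp [place0, h]
      | cons z v =>
        have := k.2 u v
        by_cases h : y = x <;> by_cases h' : z = x <;> simp [place0, h, h', this]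
        all_goals (intro h''; simp_all)⟩

lemma place_cons (x : Fin d) (k : autT d) (y : Fin d) (w : List (Fin d)) :
    (place x k).1 (y :: w) = if y = x then y :: k.1 w else y :: w := rfl

lemma place_mul (x : Fin d) (k l : autT d) : place x (k * l) = place x k * place x l := by
  refine aut_ext fun y w => ?_
  by_cases h : y = x <;> simp [place_cons, h]

lemma conj_place (g : autT d) (x : Fin d) (k : autT d) :
    g * place x k * g⁻¹ = place (rt g x) (sec g x * k * (sec g x)⁻¹) := by
  rw [mul_inv_eq_iff_eq_mul]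
  refine aut_ext fun y w => ?_
  by_cases h : y = x
  · simp [place_cons, h, cons_eq g]
  · simp [place_cons, h, cons_eq g]

lemma prod_place (g : autT d) (l : List (Fin d)) (hl : l.Nodup) (y : Fin d) (w : List (Fin d)) :
    (l.map fun x => place x (sec g x)).prod.1 (y :: w) =
      if y ∈ l then y :: (sec g y).1 w else y :: w := by
  induction l with
  | nil => simp
  | cons x l ih =>
    rw [List.nodup_cons] at hl
    rw [List.map_cons, List.prod_cons, Subgroup.coe_mul, Equiv.Perm.mul_apply, ih hl.2]
    by_cases h : y = x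
    · subst h
      simp [hl.1, place_cons]
    · by_cases h' : y ∈ l <;> simp [h, h', place_cons]

lemma eq_prod_place {g : autT d} (hg : ∀ x, rt g x = x) :
    g = (Finset.univ.toList.map fun x => place x (sec g x)).prod := by
  refine aut_ext fun y w => ?_
  rw [prod_place g _ (Finset.nodup_toList _), cons_eq, hg]
  simp

lemma fix_of_le (hd : 2 ≤ d) {g : autT d} {m : ℕ} (h : ∀ v, v.length = m → g.1 v = v)
    (v : List (Fin d)) (hv : v.length ≤ m) : g.1 v = v := by
  set u := v ++ List.replicate (m - v.length) (⟨0, by omega⟩ : Fin d) with hu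
  have h1 : g.1 u = u := h u (by simp [hu]; omega)
  have h2 : v <+: u := List.prefix_append _ _
  have h3 : g.1 v <+: u := h1 ▸ (g.2 v u).2 h2
  exact (List.prefix_of_prefix_length_le h3 h2 (length_eq g v).le).eq_of_length (length_eq g v)

lemma levelStab_anti (hd : 2 ≤ d) (G : Subgroup (autT d)) {m n : ℕ} (h : n ≤ m) :
    levelStab G m ≤ levelStab G n := fun _ hg =>
  ⟨hg.1, fun v hv => fix_of_le hd hg.2 v (hv.trans_le h)⟩

lemma conj_mem {G : Subgroup (autT d)} {n : ℕ} {y k : autT d} (hy : y ∈ G)
    (hk : k ∈ levelStab G n) : y * k * y⁻¹ ∈ levelStab G n := by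
  refine ⟨G.mul_mem (G.mul_mem hy hk.1) (G.inv_mem hy), fun v hv => ?_⟩
  simp only [Subgroup.coe_mul, Equiv.Perm.mul_apply]
  rw [hk.2 _ ((length_eq _ v).trans hv)]
  simp

variable {D : ℕ} {P : Subgroup (Equiv.Perm {w : List (Fin d) // w.length ≤ D})}

lemma sec_mem {g : autT d} (hg : g ∈ finType P) (x : Fin d) : sec g x ∈ finType P := by
  intro v
  obtain ⟨p, hp, h⟩ := hg (x :: v)
  refine ⟨p, hp, fun w => ?_⟩
  have := h w
  rw [List.cons_append, cons_eq, cons_eq, List.cons_append] at this
  exact (List.cons.inj this).2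

lemma sec_mem_stab {g : autT d} {n : ℕ} (hg : g ∈ levelStab (finType P) (n + 1)) (x : Fin d) :
    sec g x ∈ levelStab (finType P) n := by
  refine ⟨sec_mem hg.1 x, fun v hv => ?_⟩
  have := hg.2 (x :: v) (by simp [hv])
  rw [cons_eq] at this
  exact (List.cons.inj this).2

lemma place_mem (hd : 2 ≤ d) {k : autT d} {n : ℕ} (hn : D ≤ n + 1)
    (hk : k ∈ levelStab (finType P) n) (x : Fin d) :
    place x k ∈ levelStab (finType P) (n + 1) := by
  have h1 : ∀ v, v.length = n + 1 → (place x k).1 v = v := by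
    intro v hv
    cases v with
    | nil => simp at hv
    | cons y w =>
      rw [place_cons, hk.2 w (by simpa using hv)]
      simp
  refine ⟨fun v => ?_, h1⟩
  cases v with
  | nil =>
    refine ⟨1, P.one_mem, fun w => ?_⟩
    rw [apply_nil]
    exact fix_of_le hd h1 _ (w.2.trans hn)
  | cons y v =>
    by_cases h : y = x
    · obtain ⟨p, hp, h'⟩ := hk.1 v
      exact ⟨p, hp, fun w => by simp [place_cons, h, h']⟩
    · exact ⟨1, P.one_mem, fun w => by simp [place_cons, h]⟩

lemma pow_mem_stab {N : ℕ} (hN : ∀ p ∈ P, p ^ N = 1) {y : autT d} (hy : y ∈ finType P) :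
    y ^ N ∈ levelStab (finType P) D := by
  refine ⟨Subgroup.pow_mem _ hy N, fun v hv => ?_⟩
  obtain ⟨p, hp, h⟩ := hy []
  simp only [List.nil_append, apply_nil] at h
  have key : ∀ (j : ℕ) (w : {w : List (Fin d) // w.length ≤ D}),
      (y ^ j).1 w.1 = ((p ^ j) w).1 := by
    intro j
    induction j with
    | zero => intro w; rfl
    | succ j ih =>
      intro w
      rw [pow_succ, pow_succ, Subgroup.coe_mul, Equiv.Perm.mul_apply, Equiv.Perm.mul_apply, h, ih]
  have := key N ⟨v, hv.le⟩
  rwa [hN p hp] at this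

lemma prod_orbit {X A : Type*} [Fintype X] [CommGroup A] (σ : Equiv.Perm X) (f : X → A)
    (h1 : ∀ x, f (σ x) = f x) (h2 : ∀ x (l : ℕ), (σ ^ l) x = x → f x ^ l = 1) :
    ∏ x, f x = 1 := by
  classical
  have h3 : ∀ (n : ℕ) x, f ((σ ^ n) x) = f x := by
    intro n
    induction n with
    | zero => intro x; rfl
    | succ n ih => intro x; rw [pow_succ', Equiv.Perm.mul_apply, h1, ih]
  rw [← Finset.prod_fiberwise Finset.univ
    (Quotient.mk (MulAction.orbitRel (Subgroup.zpowers σ) X)) f]
  refine Finset.prod_eq_one fun q _ => ?_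
  induction q using Quotient.inductionOn with
  | h x =>
    have hmem : ∀ y, y ∈ Finset.univ.filter
        (fun y => Quotient.mk (MulAction.orbitRel (Subgroup.zpowers σ) X) y =
          Quotient.mk (MulAction.orbitRel (Subgroup.zpowers σ) X) x) ↔
        y ∈ MulAction.orbit (Subgroup.zpowers σ) x := by
      intro y
      rw [Finset.mem_filter, Quotient.eq]
      simp [MulAction.orbitRel_apply]
    rw [Finset.prod_congr rfl (g := fun _ => f x), Finset.prod_const]
    · apply h2
      have a1 := MulAction.minimalPeriod_eq_card (a := σ) (b := x)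
      rw [← Fintype.card_ofFinset _ hmem]
      have a2 : ∀ (i j : Fintype (MulAction.orbit (Subgroup.zpowers σ) x)),
          @Fintype.card _ i = @Fintype.card _ j := fun i j => by congr; exact Subsingleton.elim _ _
      rw [a2 _ _, ← a1]
      exact (MulAction.pow_smul_eq_iff_minimalPeriod_dvd (a := σ) (b := x)).2 dvd_rfl
    · intro y hy
      obtain ⟨⟨τ, hτ⟩, rfl⟩ := (hmem y).1 hy
      obtain ⟨n, rfl⟩ := (mem_powers_iff_mem_zpowers.2 hτ)
      exact h3 n x

theorem key_step (hd : 2 ≤ d) {E : ℕ} {P : Subgroup (Equiv.Perm {w : List (Fin d) // w.length ≤ E + 1})}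
    {N : ℕ} (hN : ∀ p ∈ P, p ^ N = 1) {A : Type*} [CommGroup A] (n : ℕ) :
    ∀ φ : autT d → A,
      (∀ a ∈ levelStab (finType P) E, ∀ b ∈ levelStab (finType P) E, φ (a * b) = φ a * φ b) →
      (∀ a ∈ levelStab (finType P) (E + n), φ a = 1) →
      ∀ y ∈ finType P, (∀ k ∈ levelStab (finType P) E, φ (y * k * y⁻¹) = φ k) →
        φ (y ^ N) = 1 := by
  have hle : levelStab (finType P) (E + 1) ≤ levelStab (finType P) E :=
    levelStab_anti hd _ (Nat.le_succ E)
  induction n with
  | zero => exact fun φ _ h0 y hy _ => h0 _ (hle (pow_mem_stab hN hy))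
  | succ n ih =>
    intro φ hmul h0 y hy hinv
    have hone : φ 1 = 1 := h0 1 (Subgroup.one_mem _)
    have hpow : ∀ a ∈ levelStab (finType P) E, ∀ j : ℕ, φ (a ^ j) = φ a ^ j := by
      intro a ha j
      induction j with
      | zero => simpa using hone
      | succ j ihj => rw [pow_succ, hmul _ (Subgroup.pow_mem _ ha j) _ ha, ihj, pow_succ]
    have hprod : ∀ l : List (autT d), (∀ a ∈ l, a ∈ levelStab (finType P) E) →
        φ l.prod = (l.map φ).prod := by
      intro l
      induction l with
      | nil => intro _; simpa using hone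
      | cons a l ihl =>
        intro h
        have h1 : ∀ b ∈ l, b ∈ levelStab (finType P) E := fun b hb => h b (by simp [hb])
        rw [List.prod_cons, hmul _ (h a (by simp)) _ (Subgroup.list_prod_mem _ h1), ihl h1]
        simp
    have hinvpow : ∀ (j : ℕ), ∀ k ∈ levelStab (finType P) E, φ (y ^ j * k * (y ^ j)⁻¹) = φ k := by
      intro j
      induction j with
      | zero => intro k _; simp
      | succ j ihj =>
        intro k hk
        have e : y ^ (j + 1) * k * (y ^ (j + 1))⁻¹ = y * (y ^ j * k * (y ^ j)⁻¹) * y⁻¹ := by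
          rw [pow_succ']; group
        rw [e, hinv _ (conj_mem (Subgroup.pow_mem _ hy j) hk), ihj k hk]
    have hz := pow_mem_stab hN hy
    have hz1 : ∀ x, rt (y ^ N) x = x := by
      intro x
      have := fix_of_le hd hz.2 [x] (by simp)
      rw [cons_eq] at this
      exact (List.cons.inj this).1
    have hpl : ∀ x, ∀ k ∈ levelStab (finType P) E, place x k ∈ levelStab (finType P) E :=
      fun x k hk => hle (place_mem hd le_rfl hk x)
    rw [eq_prod_place hz1, hprod _ (by
      intro a ha
      obtain ⟨x, _, rfl⟩ := List.mem_map.1 ha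
      exact hpl x _ (sec_mem_stab hz x)), List.map_map, Finset.prod_map_toList]
    apply prod_orbit (rt y)
    · intro x
      have e1 : sec (y ^ N) (rt y x) = sec y x * sec (y ^ N) x * (sec y x)⁻¹ := by
        have a1 := sec_mul (y ^ N) y x
        have a2 := sec_mul y (y ^ N) x
        rw [← pow_succ] at a1
        rw [← pow_succ', hz1, a1] at a2
        rw [← a2]; group
      simp only [Function.comp]
      rw [e1, ← conj_place, hinv _ (hpl x _ (sec_mem_stab hz x))]
    · intro x l hl
      have hl' : rt (y ^ l) x = x := by rw [rt_pow, hl]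
      have := ih (fun k => φ (place x k))
        (fun a ha b hb => by rw [place_mul, hmul _ (hpl x a ha) _ (hpl x b hb)])
        (fun a ha => h0 _ (place_mem hd (by omega) ha x))
        (sec (y ^ l) x) (sec_mem (Subgroup.pow_mem _ hy l) x)
        (fun k hk => by
          have a1 := conj_place (y ^ l) x k
          rw [hl'] at a1
          rw [← a1, hinvpow l _ (hpl x k hk)])
      have e : sec (y ^ l) x ^ N = sec (y ^ N) x ^ l := by
        rw [← sec_pow hl', ← sec_pow (hz1 x), ← pow_mul, ← pow_mul, mul_comm]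
      have e2 : ∀ (k : autT d) (j : ℕ), place x (k ^ j) = place x k ^ j := by
        intro k j
        induction j with
        | zero => exact aut_ext fun y w => by simp [place_cons]
        | succ j ihj => rw [pow_succ, place_mul, ihj, pow_succ]
      simp only [Function.comp]
      rw [← hpow _ (hpl x _ (sec_mem_stab hz x)), ← e2, ← e]
      exact this

theorem pow_mem_mul (hd : 2 ≤ d) {E : ℕ}
    {P : Subgroup (Equiv.Perm {w : List (Fin d) // w.length ≤ E + 1})}
    {N : ℕ} (hN : ∀ p ∈ P, p ^ N = 1) {g : autT d} (hg : g ∈ levelStab (finType P) E) (n : ℕ) :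
    ∃ h ∈ ⁅levelStab (finType P) E, levelStab (finType P) E⁆,
      (g ^ N)⁻¹ * h ∈ levelStab (⊤ : Subgroup (autT d)) n := by
  classical
  set K := levelStab (finType P) E with hK
  set S : Subgroup (Abelianization K) :=
    ((levelStab (finType P) (E + n)).subgroupOf K).map Abelianization.of with hS
  set π : K →* Abelianization K ⧸ S := (QuotientGroup.mk' S).comp Abelianization.of with hπ
  set φ : autT d → Abelianization K ⧸ S := fun a => if h : a ∈ K then π ⟨a, h⟩ else 1 with hφ
  have hφK : ∀ a (h : a ∈ K), φ a = π ⟨a, h⟩ := fun a h => by simp [hφ, h]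
  have hmul : ∀ a ∈ K, ∀ b ∈ K, φ (a * b) = φ a * φ b := fun a ha b hb => by
    rw [hφK _ (K.mul_mem ha hb), hφK _ ha, hφK _ hb, ← map_mul]; rfl
  have key := key_step hd hN n φ hmul (fun a ha => by
      have ha' : a ∈ K := levelStab_anti hd _ (Nat.le_add_right E n) ha
      rw [hφK _ ha']
      exact (QuotientGroup.eq_one_iff _).2 ⟨⟨a, ha'⟩, ha, rfl⟩) g hg.1 (fun k hk => by
      rw [hmul _ (K.mul_mem hg hk) _ (K.inv_mem hg), hmul _ hg _ hk, mul_right_comm,
        ← hmul _ hg _ (K.inv_mem hg), mul_inv_cancel, hφK _ K.one_mem]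
      exact (congrArg (· * φ k) (map_one π)).trans (one_mul _))
  have hgN : g ^ N ∈ K := K.pow_mem hg N
  rw [hφK _ hgN] at key
  obtain ⟨s, hs, hs'⟩ := (QuotientGroup.eq_one_iff _).1 key
  have hc : (⟨g ^ N, hgN⟩ : K) * s⁻¹ ∈ commutator K := by
    rw [← Abelianization.ker_of, MonoidHom.mem_ker, map_mul, map_inv, hs', mul_inv_cancel]
  refine ⟨g ^ N * s.1⁻¹, ?_, ?_⟩
  · rw [← Subgroup.map_subtype_commutator]
    exact ⟨_, hc, rfl⟩
  · rw [inv_mul_cancel_left]
    exact Subgroup.inv_mem _ ⟨trivial, (levelStab_anti hd _ (Nat.le_add_left n E) hs).2⟩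

theorem isBasis (hd : 2 ≤ d) : @TopologicalSpace.IsTopologicalBasis _ (levelTop d)
    {U | ∃ (g : autT d) (n : ℕ), U = {h | g⁻¹ * h ∈ levelStab ⊤ n}} := by
  let _inst := levelTop d
  refine ⟨?_, ?_, rfl⟩
  · rintro _ ⟨g₁, n₁, rfl⟩ _ ⟨g₂, n₂, rfl⟩ x ⟨h₁, h₂⟩
    refine ⟨_, ⟨x, max n₁ n₂, rfl⟩, by simp, fun y hy => ⟨?_, ?_⟩⟩
    · have := Subgroup.mul_mem _ h₁ (levelStab_anti hd _ (le_max_left _ _) hy)
      simpa [mul_assoc] using this
    · have := Subgroup.mul_mem _ h₂ (levelStab_anti hd _ (le_max_right _ _) hy)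
      simpa [mul_assoc] using this
  · exact Set.eq_univ_of_forall fun x => ⟨_, ⟨x, 0, rfl⟩, by simp⟩

theorem main (hd : 2 ≤ d) (hD : 1 ≤ D)
    (P : Subgroup (Equiv.Perm {w : List (Fin d) // w.length ≤ D})) :
    ∃ N : ℕ, 0 < N ∧ ∀ g ∈ levelStab (finType P) (D - 1),
      g ^ N ∈ @closure _ (levelTop d)
        (⁅levelStab (finType P) (D - 1), levelStab (finType P) (D - 1)⁆ : Subgroup (autT d)) := by
  obtain ⟨E, rfl⟩ : ∃ E, D = E + 1 := ⟨D - 1, by omega⟩
  have : Finite {w : List (Fin d) // w.length ≤ E + 1} := List.finite_length_le (Fin d) (E + 1)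
  refine ⟨Nat.card (Equiv.Perm {w : List (Fin d) // w.length ≤ E + 1}), Nat.card_pos,
    fun g hg => ?_⟩
  let _inst := levelTop d
  rw [(isBasis hd).mem_closure_iff]
  rintro _ ⟨x, n, rfl⟩ hx
  obtain ⟨h, hh, hh'⟩ := pow_mem_mul hd (fun p _ => pow_card_eq_one') hg n
  refine ⟨h, ?_, hh⟩
  have := Subgroup.mul_mem _ hx hh'
  simpa [mul_assoc] using this

end Pool.Agent.MP_66c699_al.H67
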